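import Mathlib

set_option autoImplicit false

namespace Pool.Agent.Results.MP_eaaa35_co.OrderOfGrowth

open Finset

/-- `A 0, ..., A (m-1)` are `r`-qualitatively independent subsets of the finite set `V`: for
`i ≠ j` all four cells have at least `r` elements. -/
def IsQI {V : Type} [Fintype V] [DecidableEq V] (r : ℕ) {m : ℕ} (A : Fin m → Finset V) : Prop :=
  ∀ i j, i ≠ j → r ≤ (A i ∩ A j).card ∧ r ≤ (A i ∩ (A j)ᶜ).card ∧
    r ≤ ((A i)ᶜ ∩ A j).card ∧ r ≤ ((A i)ᶜ ∩ (A j)ᶜ).card

/-- The largest `m` for which an `r`-qualitatively independent family of `m` subsets of an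
`n`-element set exists (for `r ≥ 1` it is shown below that this is a maximum). -/
noncomputable def M (r n : ℕ) : ℕ := sSup {m | ∃ A : Fin m → Finset (Fin n), IsQI r A}

section upper

variable {V : Type} [Fintype V] [DecidableEq V]

theorem lym (t : ℕ) (F : Finset (Finset V))
    (hF : ∀ A ∈ F, ∀ B ∈ F, A ≠ B → t + 1 ≤ (A \ B).card) (hc : ∀ A ∈ F, t ≤ A.card) :
    F.card * (Fintype.card V + t).choose t ≤
      (Fintype.card V + t).choose ((Fintype.card V + t) / 2) := by
  classical
  set n := Fintype.card V with hn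
  set S : Finset (Finset V) := F.biUnion (fun A => A.powersetCard (A.card - t)) with hS
  have key : ∀ A ∈ F, ∀ B ∈ F, A ≠ B → ∀ C ∈ A.powersetCard (A.card - t),
      ∀ D ∈ B.powersetCard (B.card - t), ¬ C ⊆ D := by
    intro A hA B hB hAB C hC D hD hCD
    rw [mem_powersetCard] at hC hD
    have h1 := hF A hA B hB hAB
    have h2 : A \ B ⊆ A \ C := by
      intro x hx
      rw [mem_sdiff] at hx ⊢
      exact ⟨hx.1, fun h => hx.2 (hD.1 (hCD h))⟩
    have h3 := card_le_card h2
    rw [card_sdiff_of_subset hC.1, hC.2] at h3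
    have := hc A hA
    omega
  have hanti : IsAntichain (· ⊆ ·) (SetLike.coe S) := by
    intro C hC D hD hCD hsub
    simp only [hS, SetLike.mem_coe, mem_biUnion] at hC hD
    obtain ⟨A, hA, hCA⟩ := hC
    obtain ⟨B, hB, hDB⟩ := hD
    by_cases hAB : A = B
    · subst hAB
      rw [mem_powersetCard] at hCA hDB
      exact hCD (eq_of_subset_of_card_le hsub (by rw [hCA.2, hDB.2]))
    · exact key A hA B hB hAB C hCA D hDB hsub
  have hL := Finset.lubell_yamamoto_meshalkin_inequality_sum_inv_choose (𝕜 := ℚ) hanti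
  rw [hS, sum_biUnion] at hL
  swap
  · intro A hA B hB hAB
    rw [Function.onFun, disjoint_left]
    intro C hC hC'
    exact key A hA B hB hAB C hC C hC' (Subset.refl _)
  have hterm : ∀ A ∈ F, ((n + t).choose t : ℚ) / ((n + t).choose ((n + t) / 2) : ℚ) ≤
      ∑ s ∈ A.powersetCard (A.card - t), ((Fintype.card V).choose s.card : ℚ)⁻¹ := by
    intro A hA
    have htA := hc A hA
    have e1 : ∑ s ∈ A.powersetCard (A.card - t), ((Fintype.card V).choose s.card : ℚ)⁻¹ =
        ∑ s ∈ A.powersetCard (A.card - t), ((n).choose (A.card - t) : ℚ)⁻¹ :=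
      sum_congr rfl fun s hs => by rw [(mem_powersetCard.1 hs).2]
    rw [e1, sum_const, card_powersetCard, nsmul_eq_mul]
    have hAn : A.card ≤ n := by rw [hn]; exact card_le_univ A
    have hchoose := Nat.choose_mul (n := n + t) (k := A.card) (s := t) htA
    rw [Nat.add_sub_cancel] at hchoose
    have p1 : 0 < n.choose (A.card - t) := Nat.choose_pos (by omega)
    have p2 : 0 < (n + t).choose A.card := Nat.choose_pos (by omega)
    have p3 : 0 < (n + t).choose ((n + t) / 2) := Nat.choose_pos (by omega)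
    have hmid : (n + t).choose A.card ≤ (n + t).choose ((n + t) / 2) := Nat.choose_le_middle _ _
    rw [Nat.choose_symm htA]
    have q1 : (0 : ℚ) < n.choose (A.card - t) := by exact_mod_cast p1
    have q2 : (0 : ℚ) < (n + t).choose A.card := by exact_mod_cast p2
    have q3 : (0 : ℚ) < (n + t).choose ((n + t) / 2) := by exact_mod_cast p3
    rw [← div_eq_mul_inv, div_le_div_iff₀ q3 q1]
    have hchoose' : ((n + t).choose A.card : ℚ) * A.card.choose t =
        (n + t).choose t * n.choose (A.card - t) := by exact_mod_cast hchoose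
    rw [← hchoose', mul_comm]
    have hmid' : ((n + t).choose A.card : ℚ) ≤ (n + t).choose ((n + t) / 2) := by
      exact_mod_cast hmid
    exact mul_le_mul_of_nonneg_left hmid' (by positivity)
  have hsum := (sum_le_sum hterm).trans hL
  rw [sum_const, nsmul_eq_mul] at hsum
  have p3 : 0 < (n + t).choose ((n + t) / 2) := Nat.choose_pos (by omega)
  have q3 : (0 : ℚ) < (n + t).choose ((n + t) / 2) := by exact_mod_cast p3
  rw [← mul_div_assoc, div_le_one q3] at hsum
  exact_mod_cast hsum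

/-- upper bound for families with at least two members -/
theorem upper (t m : ℕ) (A : Fin m → Finset V) (hA : IsQI (t + 1) A) (hm : 2 ≤ m) :
    2 * m * (Fintype.card V + t).choose t ≤
      (Fintype.card V + t).choose ((Fintype.card V + t) / 2) := by
  classical
  have hne : ∀ i : Fin m, ∃ j : Fin m, i ≠ j := by
    intro i
    by_cases h : i.val = 0
    · exact ⟨⟨1, by omega⟩, fun e => by rw [e] at h; simp at h⟩
    · exact ⟨⟨0, by omega⟩, fun e => h (by rw [e])⟩
  have hinj : Function.Injective A := by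
    intro i j hij
    by_contra h
    have := (hA i j h).2.1
    rw [hij] at this
    simp at this
  have hsz : ∀ i, t + 1 ≤ (A i).card ∧ t + 1 ≤ ((A i)ᶜ).card := by
    intro i
    obtain ⟨j, hj⟩ := hne i
    exact ⟨(hA i j hj).1.trans (card_le_card inter_subset_left),
      (hA i j hj).2.2.1.trans (card_le_card inter_subset_left)⟩
  have hdisj : ∀ i j, A i ≠ (A j)ᶜ := by
    intro i j h
    by_cases hij : i = j
    · subst hij
      have h1 := hsz i
      have : (A i) ∩ (A i) = ∅ := by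
        nth_rewrite 2 [h]; simp
      rw [inter_self] at this
      rw [this] at h1
      simp at h1
    · have := (hA i j hij).1
      rw [h, inter_comm, inter_compl] at this
      simp at this
  set F1 := univ.image A with hF1
  set F2 := univ.image (fun i => (A i)ᶜ) with hF2
  have hcard : (F1 ∪ F2).card = 2 * m := by
    rw [card_union_of_disjoint, hF1, hF2, card_image_of_injective _ hinj,
      card_image_of_injective, card_univ, Fintype.card_fin]
    · omega
    · exact fun i j h => hinj (compl_injective h)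
    · rw [disjoint_left]
      intro B hB hB'
      rw [hF1, mem_image] at hB
      rw [hF2, mem_image] at hB'
      obtain ⟨i, -, rfl⟩ := hB
      obtain ⟨j, -, hj⟩ := hB'
      exact hdisj i j hj.symm
  rw [← hcard]
  apply lym
  · intro B hB C hC hBC
    rw [mem_union, hF1, hF2, mem_image, mem_image] at hB hC
    rcases hB with ⟨i, -, rfl⟩ | ⟨i, -, rfl⟩ <;> rcases hC with ⟨j, -, rfl⟩ | ⟨j, -, rfl⟩
    · have hij : i ≠ j := fun h => hBC (by rw [h])
      have := (hA i j hij).2.1
      rwa [← sdiff_eq_inter_compl] at this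
    · by_cases hij : i = j
      · subst hij
        have h1 := (hsz i).1
        rwa [sdiff_eq_inter_compl, compl_compl, inter_self]
      · have := (hA i j hij).1
        rwa [sdiff_eq_inter_compl, compl_compl]
    · by_cases hij : i = j
      · subst hij
        rw [sdiff_eq_inter_compl, inter_self]
        exact (hsz i).2
      · have := (hA i j hij).2.2.2
        rwa [sdiff_eq_inter_compl]
    · have hij : i ≠ j := fun h => hBC (by rw [h])
      have := (hA i j hij).2.2.1
      rwa [sdiff_eq_inter_compl, compl_compl]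
  · intro B hB
    rw [mem_union, hF1, hF2, mem_image, mem_image] at hB
    rcases hB with ⟨i, -, rfl⟩ | ⟨i, -, rfl⟩
    · have := (hsz i).1; omega
    · have := (hsz i).2; omega

end upper

section code

open Polynomial

theorem code (n w t q : ℕ) [Fact q.Prime] (hq : n < q) :
    ∃ F : Finset (Finset (Fin n)), (∀ A ∈ F, A.card = w) ∧
      (∀ A ∈ F, ∀ B ∈ F, A ≠ B → t + 1 ≤ (A \ B).card) ∧ n.choose w ≤ q ^ t * F.card := by
  classical
  set f : Fin n → ZMod q := fun i => (i.val : ZMod q) with hf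
  have hfinj : Function.Injective f := by
    intro i j h
    have h1 : ((i.val : ℕ) : ZMod q) = ((j.val : ℕ) : ZMod q) := h
    rw [ZMod.natCast_eq_natCast_iff'] at h1
    rw [Nat.mod_eq_of_lt (i.2.trans hq), Nat.mod_eq_of_lt (j.2.trans hq)] at h1
    exact Fin.ext h1
  set P : Finset (Fin n) → (ZMod q)[X] := fun A => ∏ a ∈ A, (X - C (f a)) with hP
  have hmonic : ∀ A, (P A).Monic := fun A => monic_prod_of_monic _ _ fun a _ => monic_X_sub_C _
  have hdeg : ∀ A, (P A).natDegree = A.card := by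
    intro A
    rw [hP, natDegree_prod_of_monic _ _ fun a _ => monic_X_sub_C _]
    simp
  set T : Finset (Fin n) → (Fin t → ZMod q) := fun A j => (P A).coeff (w - 1 - j.val) with hT
  set L : Finset (Finset (Fin n)) := powersetCard w univ with hL
  -- the key property
  have key : ∀ A ∈ L, ∀ B ∈ L, T A = T B → A ≠ B → t + 1 ≤ (A \ B).card := by
    intro A hA B hB hTT hAB
    rw [hL, mem_powersetCard] at hA hB
    by_contra hlt
    rw [not_le] at hlt
    have hcardsd : (A \ B).card = (B \ A).card := by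
      have h1 := card_sdiff_add_card_inter A B
      have h2 := card_sdiff_add_card_inter B A
      rw [inter_comm] at h2
      omega
    have hfacA : P A = P (A ∩ B) * P (A \ B) := by
      rw [hP]
      simp only
      rw [← prod_union (disjoint_sdiff_inter A B).symm, union_comm, sdiff_union_inter]
    have hfacB : P B = P (A ∩ B) * P (B \ A) := by
      rw [hP]
      simp only
      rw [inter_comm A B, ← prod_union (disjoint_sdiff_inter B A).symm, union_comm,
        sdiff_union_inter]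
    have hPne : P A ≠ P B := by
      intro h
      apply hAB
      have hroots : ∀ D : Finset (Fin n), ∀ x, (P D).IsRoot (f x) ↔ x ∈ D := by
        intro D x
        rw [IsRoot, hP, eval_prod, prod_eq_zero_iff]
        constructor
        · rintro ⟨a, ha, h0⟩
          rw [eval_sub, eval_X, eval_C, sub_eq_zero] at h0
          rw [hfinj h0]; exact ha
        · intro hx
          exact ⟨x, hx, by simp⟩
      ext x
      rw [← hroots A x, ← hroots B x, h]
    have hsub : P A - P B = P (A ∩ B) * (P (A \ B) - P (B \ A)) := by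
      rw [mul_sub, ← hfacA, ← hfacB]
    have hne0 : P A - P B ≠ 0 := sub_ne_zero.2 hPne
    have hne1 : P (A \ B) - P (B \ A) ≠ 0 := by
      intro h; rw [hsub, h, mul_zero] at hne0; exact hne0 rfl
    have hd1 : (P A - P B).natDegree = (A ∩ B).card + (P (A \ B) - P (B \ A)).natDegree := by
      rw [hsub, (hmonic _).natDegree_mul' hne1, hdeg]
    have hcardAB : (A \ B).card + (A ∩ B).card = w := by
      rw [card_sdiff_add_card_inter]; exact hA.2
    -- coefficient of P A - P B at its degree vanishes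
    have hlead : (P A - P B).coeff ((P A - P B).natDegree) ≠ 0 := by
      rw [coeff_natDegree]; exact leadingCoeff_ne_zero.2 hne0
    set d := (P A - P B).natDegree with hd
    have hdge : w ≤ d + t := by omega
    apply hlead
    rw [coeff_sub]
    by_cases hdw : w < d
    · rw [coeff_eq_zero_of_natDegree_lt (by rw [hdeg, hA.2]; exact hdw),
        coeff_eq_zero_of_natDegree_lt (by rw [hdeg, hB.2]; exact hdw), sub_zero]
    · by_cases hdw' : d = w
      · have e1 : (P A).coeff d = 1 := by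
          have := hmonic A
          rw [Monic, leadingCoeff, hdeg, hA.2] at this
          rw [hdw']; exact this
        have e2 : (P B).coeff d = 1 := by
          have := hmonic B
          rw [Monic, leadingCoeff, hdeg, hB.2] at this
          rw [hdw']; exact this
        rw [e1, e2, sub_self]
      · have hj : w - 1 - d < t := by omega
        have := congrFun hTT ⟨w - 1 - d, hj⟩
        simp only [hT] at this
        rw [show w - 1 - (w - 1 - d) = d by omega] at this
        rw [this, sub_self]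
  -- pigeonhole
  have hpig : ∃ c : Fin t → ZMod q, n.choose w ≤ q ^ t * (L.filter (fun A => T A = c)).card := by
    by_contra hcon
    push Not at hcon
    have h1 : L.card = ∑ c : Fin t → ZMod q, (L.filter (fun A => T A = c)).card :=
      card_eq_sum_card_fiberwise (fun A _ => mem_univ (T A))
    have h2 : L.card = n.choose w := by rw [hL, card_powersetCard, card_univ, Fintype.card_fin]
    have h3 : Fintype.card (Fin t → ZMod q) = q ^ t := by
      rw [Fintype.card_fun, ZMod.card, Fintype.card_fin]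
    have h4 : ∑ c : Fin t → ZMod q, q ^ t * (L.filter (fun A => T A = c)).card <
        ∑ c : Fin t → ZMod q, n.choose w := by
      apply sum_lt_sum_of_nonempty
      · have : Nonempty (Fin t → ZMod q) := ⟨fun _ => 0⟩
        exact univ_nonempty
      · intro c _; exact hcon c
    rw [← mul_sum, ← h1, h2, sum_const, card_univ, h3, smul_eq_mul] at h4
    exact lt_irrefl _ h4
  obtain ⟨c, hc⟩ := hpig
  refine ⟨L.filter (fun A => T A = c), ?_, ?_, hc⟩
  · intro A hA
    rw [mem_filter, hL, mem_powersetCard] at hA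
    exact hA.1.2
  · intro A hA B hB hAB
    rw [mem_filter] at hA hB
    exact key A hA.1 B hB.1 (hA.2.trans hB.2.symm) hAB

end code


section transfer

variable {V W : Type} [Fintype V] [DecidableEq V] [Fintype W] [DecidableEq W]

/-- an injection carries families to larger ground sets -/
theorem IsQI.map {r m : ℕ} {A : Fin m → Finset V} (hA : IsQI r A) (f : V ↪ W) :
    IsQI r (fun i => (A i).map f) := by
  have hc : ∀ B C : Finset V, (B ∩ C).card ≤ (B.map f ∩ C.map f).card := by
    intro B C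
    rw [← map_inter, card_map]
  have hcomp : ∀ B : Finset V, Bᶜ.map f ⊆ (B.map f)ᶜ := by
    intro B x hx
    rw [mem_map] at hx
    obtain ⟨y, hy, rfl⟩ := hx
    rw [mem_compl, mem_map]
    rintro ⟨z, hz, hzy⟩
    rw [f.injective hzy] at hz
    exact (mem_compl.1 hy) hz
  intro i j hij
  obtain ⟨h1, h2, h3, h4⟩ := hA i j hij
  refine ⟨h1.trans (hc _ _), (h2.trans (hc _ _)).trans (card_le_card ?_),
    (h3.trans (hc _ _)).trans (card_le_card ?_), (h4.trans (hc _ _)).trans (card_le_card ?_)⟩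
  · exact inter_subset_inter (Subset.refl _) (hcomp _)
  · exact inter_subset_inter (hcomp _) (Subset.refl _)
  · exact inter_subset_inter (hcomp _) (hcomp _)

theorem IsQI.injective {r m : ℕ} {A : Fin m → Finset V} (hr : 1 ≤ r) (hA : IsQI r A) :
    Function.Injective A := by
  intro i j hij
  by_contra h
  have := (hA i j h).2.1
  rw [hij] at this
  simp at this
  omega

theorem IsQI.card_le {r m : ℕ} {A : Fin m → Finset V} (hr : 1 ≤ r) (hA : IsQI r A) :
    m ≤ 2 ^ Fintype.card V := by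
  have := Fintype.card_le_of_injective A (hA.injective hr)
  simpa using this

/-- at least `4r` points are needed for two members -/
theorem IsQI.four_le {r m : ℕ} {A : Fin m → Finset V} (hA : IsQI r A) (hm : 2 ≤ m) :
    4 * r ≤ Fintype.card V := by
  have h := hA ⟨0, by omega⟩ ⟨1, by omega⟩ (by intro h; simp at h)
  set B := A ⟨0, by omega⟩
  set C := A ⟨1, by omega⟩
  obtain ⟨h1, h2, h3, h4⟩ := h
  have e1 : (B ∩ C).card + (B ∩ Cᶜ).card = B.card := by
    rw [← sdiff_eq_inter_compl, add_comm, card_sdiff_add_card_inter]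
  have e2 : (Bᶜ ∩ C).card + (Bᶜ ∩ Cᶜ).card = Bᶜ.card := by
    rw [← sdiff_eq_inter_compl, add_comm, card_sdiff_add_card_inter]
  have e3 := card_add_card_compl B
  omega

end transfer

section maxi

theorem M_isGreatest (r n : ℕ) (hr : 1 ≤ r) :
    IsGreatest {m | ∃ A : Fin m → Finset (Fin n), IsQI r A} (M r n) := by
  have hne : {m | ∃ A : Fin m → Finset (Fin n), IsQI r A}.Nonempty :=
    ⟨0, fun i => i.elim0, fun i => i.elim0⟩
  have hbd : BddAbove {m | ∃ A : Fin m → Finset (Fin n), IsQI r A} := by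
    refine ⟨2 ^ n, ?_⟩
    rintro m ⟨A, hA⟩
    have := hA.card_le hr
    simpa using this
  exact ⟨Nat.sSup_mem hne hbd, fun m hm => le_csSup hbd hm⟩

theorem le_M {r n m : ℕ} (hr : 1 ≤ r) {V : Type} [Fintype V] [DecidableEq V]
    (hV : Fintype.card V ≤ n) (A : Fin m → Finset V) (hA : IsQI r A) : m ≤ M r n := by
  have h : Nonempty (V ↪ Fin n) := by
    apply Function.Embedding.nonempty_of_card_le
    simpa using hV
  obtain ⟨f⟩ := h
  exact (M_isGreatest r n hr).2 ⟨_, hA.map f⟩

theorem M_mono {r n n' : ℕ} (hr : 1 ≤ r) (h : n ≤ n') : M r n ≤ M r n' := by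
  obtain ⟨A, hA⟩ := (M_isGreatest r n hr).1
  exact le_M hr (by simpa using h) A hA

theorem one_le_M (r n : ℕ) (hr : 1 ≤ r) : 1 ≤ M r n := by
  refine (M_isGreatest r n hr).2 ⟨fun _ => ∅, ?_⟩
  intro i j hij
  exact absurd (Subsingleton.elim i j) hij

theorem M_small (r n : ℕ) (hr : 1 ≤ r) (hn : n < 4 * r) : M r n = 1 := by
  apply le_antisymm _ (one_le_M r n hr)
  by_contra hcon
  obtain ⟨A, hA⟩ := (M_isGreatest r n hr).1
  have := hA.four_le (by omega)
  simp at this
  omega

theorem two_le_M (r n : ℕ) (hr : 1 ≤ r) (hn : 4 * r ≤ n) : 2 ≤ M r n := by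
  -- ground set `Fin r × Bool × Bool`
  let A : Fin 2 → Finset (Fin r × Bool × Bool) :=
    fun i => univ.filter (fun x => if i = 0 then x.2.1 = true else x.2.2 = true)
  refine le_M (V := Fin r × Bool × Bool) hr (by simp; omega) A ?_
  have hcell : ∀ (S : Finset (Fin r × Bool × Bool)) (a b : Bool), (∀ x : Fin r, (x, a, b) ∈ S) →
      r ≤ S.card := by
    intro S a b h
    have h1 : (univ : Finset (Fin r)).card ≤ S.card := by
      apply card_le_card_of_injOn (fun x => (x, a, b))
      · intro x _; exact h x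
      · intro x _ y _ hxy
        exact (Prod.ext_iff.1 hxy).1
    simpa using h1
  intro i j hij
  fin_cases i <;> fin_cases j
  · exact absurd rfl hij
  · refine ⟨hcell _ true true ?_, hcell _ true false ?_, hcell _ false true ?_,
      hcell _ false false ?_⟩ <;> intro x <;> simp [A]
  · refine ⟨hcell _ true true ?_, hcell _ false true ?_, hcell _ true false ?_,
      hcell _ false false ?_⟩ <;> intro x <;> simp [A]
  · exact absurd rfl hij

/-- the upper bound -/
theorem M_upper (r n : ℕ) (hr : 1 ≤ r) (hn : 4 * r ≤ n) :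
    2 * M r n * (n + r - 1).choose (r - 1) ≤ (n + r - 1).choose ((n + r - 1) / 2) := by
  obtain ⟨A, hA⟩ := (M_isGreatest r n hr).1
  obtain ⟨t, rfl⟩ : ∃ t, r = t + 1 := ⟨r - 1, by omega⟩
  have := upper t _ A hA (two_le_M _ n hr hn)
  simpa using this

/-- adding forced points -/
theorem M_of_code {r n : ℕ} (hr : 1 ≤ r) (hn : 2 * r ≤ n) (F : Finset (Finset (Fin (n - 2 * r))))
    (hF : ∀ A ∈ F, ∀ B ∈ F, A ≠ B → r ≤ (A \ B).card) :
    F.card ≤ M r n := by
  classical
  let e := F.equivFin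
  let A : Fin F.card → Finset (Fin (n - 2 * r) ⊕ (Fin r × Bool)) := fun i =>
    ((e.symm i).1.map Function.Embedding.inl) ∪
      ((univ : Finset (Fin r)).image (fun x => Sum.inr (x, true)))
  have hbig : ∀ (S : Finset (Fin (n - 2 * r) ⊕ (Fin r × Bool))) (b : Bool),
      (∀ x : Fin r, Sum.inr (x, b) ∈ S) → r ≤ S.card := by
    intro S b h
    have h1 : (univ : Finset (Fin r)).card ≤ S.card := by
      apply card_le_card_of_injOn (fun x => Sum.inr (x, b))
      · intro x _; exact h x
      · intro x _ y _ hxy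
        exact (Prod.ext_iff.1 (Sum.inr_injective hxy)).1
    simpa using h1
  have hdiff : ∀ i j : Fin F.card, i ≠ j → r ≤ (A i ∩ (A j)ᶜ).card := by
    intro i j hij
    have hne : (e.symm i).1 ≠ (e.symm j).1 := by
      intro h
      exact hij (e.symm.injective (Subtype.ext h))
    have h1 := hF _ (e.symm i).2 _ (e.symm j).2 hne
    have h2 : ((e.symm i).1 \ (e.symm j).1).map Function.Embedding.inl ⊆ A i ∩ (A j)ᶜ := by
      intro x hx
      rw [mem_map] at hx
      obtain ⟨y, hy, rfl⟩ := hx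
      rw [mem_sdiff] at hy
      rw [mem_inter, mem_compl]
      refine ⟨mem_union_left _ (mem_map_of_mem _ hy.1), ?_⟩
      intro h
      rw [mem_union] at h
      rcases h with h | h
      · rw [mem_map] at h
        obtain ⟨z, hz, hzy⟩ := h
        rw [Function.Embedding.inl.injective hzy] at hz
        exact hy.2 hz
      · rw [mem_image] at h
        obtain ⟨z, -, hz⟩ := h
        simp at hz
    have h3 := card_le_card h2
    rw [card_map] at h3
    exact h1.trans h3
  refine le_M (V := Fin (n - 2 * r) ⊕ (Fin r × Bool)) hr (by simp; omega) A ?_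
  intro i j hij
  refine ⟨hbig _ true ?_, hdiff i j hij, ?_, hbig _ false ?_⟩
  · intro x; simp [A]
  · rw [inter_comm]; exact hdiff j i hij.symm
  · intro x; simp [A]

theorem M_lower (r n : ℕ) (hr : 1 ≤ r) (hn : 4 * r ≤ n) :
    (n - 2 * r).choose ((n - 2 * r) / 2) ≤ (2 * (n - 2 * r)) ^ (r - 1) * M r n := by
  obtain ⟨q, hqp, hq1, hq2⟩ := Nat.exists_prime_lt_and_le_two_mul (n - 2 * r) (by omega)
  have : Fact q.Prime := ⟨hqp⟩
  obtain ⟨F, -, hF, hcard⟩ := code (n - 2 * r) ((n - 2 * r) / 2) (r - 1) q hq1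
  have h1 : F.card ≤ M r n := by
    refine M_of_code hr (by omega) F ?_
    intro A hA B hB hAB
    have := hF A hA B hB hAB
    omega
  calc (n - 2 * r).choose ((n - 2 * r) / 2) ≤ q ^ (r - 1) * F.card := hcard
    _ ≤ (2 * (n - 2 * r)) ^ (r - 1) * M r n :=
      Nat.mul_le_mul (Nat.pow_le_pow_left hq2 _) h1

end maxi

section central

theorem cb_upper (n : ℕ) : (n.centralBinom) ^ 2 * (2 * n + 1) ≤ 16 ^ n := by
  induction n with
  | zero => simp
  | succ n ih =>
    have h := Nat.succ_mul_centralBinom_succ n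
    have h2 : ((n + 1) * (n + 1).centralBinom) ^ 2 = (2 * (2 * n + 1) * n.centralBinom) ^ 2 := by
      rw [h]
    have h3 : (n + 1) ^ 2 * (((n + 1).centralBinom) ^ 2 * (2 * (n + 1) + 1)) ≤
        (n + 1) ^ 2 * 16 ^ (n + 1) := by
      calc (n + 1) ^ 2 * (((n + 1).centralBinom) ^ 2 * (2 * (n + 1) + 1))
          = ((n + 1) * (n + 1).centralBinom) ^ 2 * (2 * (n + 1) + 1) := by ring
        _ = (2 * (2 * n + 1) * n.centralBinom) ^ 2 * (2 * (n + 1) + 1) := by rw [h2]
        _ = (4 * (2 * n + 1) * (2 * n + 3)) * (n.centralBinom ^ 2 * (2 * n + 1)) := by ring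
        _ ≤ (16 * (n + 1) ^ 2) * 16 ^ n := by
          apply Nat.mul_le_mul _ ih
          nlinarith
        _ = (n + 1) ^ 2 * 16 ^ (n + 1) := by ring
    exact Nat.le_of_mul_le_mul_left h3 (by positivity)

theorem cb_lower (n : ℕ) : 16 ^ (n + 1) ≤ ((n + 1).centralBinom) ^ 2 * (4 * (n + 1)) := by
  induction n with
  | zero => simp [Nat.centralBinom, Nat.choose]
  | succ n ih =>
    have h := Nat.succ_mul_centralBinom_succ (n + 1)
    have h2 : ((n + 1 + 1) * (n + 1 + 1).centralBinom) ^ 2 =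
        (2 * (2 * (n + 1) + 1) * (n + 1).centralBinom) ^ 2 := by rw [h]
    have h3 : (n + 2) ^ 2 * 16 ^ (n + 1 + 1) ≤
        (n + 2) ^ 2 * (((n + 1 + 1).centralBinom) ^ 2 * (4 * (n + 1 + 1))) := by
      have h4 : (n + 1) * ((n + 2) ^ 2 * 16 ^ (n + 1 + 1)) ≤
          (n + 1) * ((n + 2) ^ 2 * (((n + 1 + 1).centralBinom) ^ 2 * (4 * (n + 1 + 1)))) := by
        calc (n + 1) * ((n + 2) ^ 2 * 16 ^ (n + 1 + 1))
            = (16 * (n + 1) * (n + 2) ^ 2) * 16 ^ (n + 1) := by ring
          _ ≤ (16 * (n + 1) * (n + 2) ^ 2) * (((n + 1).centralBinom) ^ 2 * (4 * (n + 1))) :=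
            Nat.mul_le_mul_left _ ih
          _ = (4 * (n + 1) * (n + 2)) * (4 * (n + 1) * (n + 2) * 4 *
                ((n + 1).centralBinom) ^ 2) := by ring
          _ ≤ (2 * (n + 1) + 1) ^ 2 * (4 * (n + 1) * (n + 2) * 4 *
                ((n + 1).centralBinom) ^ 2) := by
            apply Nat.mul_le_mul_right
            nlinarith
          _ = (n + 1) * (4 * (n + 1 + 1) *
                (2 * (2 * (n + 1) + 1) * (n + 1).centralBinom) ^ 2) := by ring
          _ = (n + 1) * (4 * (n + 1 + 1) * ((n + 1 + 1) * (n + 1 + 1).centralBinom) ^ 2) := by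
            rw [h2]
          _ = _ := by ring
      exact Nat.le_of_mul_le_mul_left h4 (by positivity)
    exact Nat.le_of_mul_le_mul_left h3 (by positivity)

theorem two_mul_choose_odd (k : ℕ) :
    2 * (2 * k + 1).choose k = (k + 1).centralBinom := by
  rw [Nat.centralBinom, show 2 * (k + 1) = (2 * k + 1) + 1 by ring, Nat.choose_succ_succ,
    Nat.choose_symm_half]
  ring

theorem mid_upper (N : ℕ) : (N.choose (N / 2)) ^ 2 * (N + 1) ≤ 4 ^ N := by
  rcases Nat.even_or_odd' N with ⟨k, rfl | rfl⟩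
  · have h := cb_upper k
    rw [Nat.centralBinom] at h
    rw [show 2 * k / 2 = k by omega, pow_mul]
    exact h
  · have h := cb_upper (k + 1)
    rw [← two_mul_choose_odd] at h
    rw [show (2 * k + 1) / 2 = k by omega]
    have e : (4 : ℕ) ^ (2 * k + 1) * 4 = 16 ^ (k + 1) := by
      rw [← pow_succ, show 2 * k + 1 + 1 = 2 * (k + 1) by ring, pow_mul]; norm_num
    nlinarith [sq_nonneg ((2 * k + 1).choose k)]

theorem mid_lower (N : ℕ) : 4 ^ N ≤ (N.choose (N / 2)) ^ 2 * (2 * (N + 1)) := by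
  rcases Nat.even_or_odd' N with ⟨k, rfl | rfl⟩
  · rcases k with _ | k
    · simp
    · have h := cb_lower k
      rw [Nat.centralBinom] at h
      rw [show 2 * (k + 1) / 2 = k + 1 by omega, pow_mul]
      norm_num
      nlinarith [sq_nonneg ((2 * (k + 1)).choose (k + 1))]
  · have h := cb_lower k
    rw [← two_mul_choose_odd] at h
    rw [show (2 * k + 1) / 2 = k by omega]
    have e : (4 : ℕ) ^ (2 * k + 1) * 4 = 16 ^ (k + 1) := by
      rw [← pow_succ, show 2 * k + 1 + 1 = 2 * (k + 1) by ring, pow_mul]; norm_num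
    nlinarith [sq_nonneg ((2 * k + 1).choose k)]

end central

section growth

theorem growth_upper (r n : ℕ) (hr : 1 ≤ r) (hn : 4 * r ≤ n) :
    (M r n : ℝ) ≤ 2 ^ r * ((r - 1).factorial : ℝ) / 4 * (2 ^ n * Real.sqrt n / (n : ℝ) ^ r) := by
  have h1 := M_upper r n hr hn
  obtain ⟨t, rfl⟩ : ∃ t, r = t + 1 := ⟨r - 1, by omega⟩
  simp only [Nat.add_sub_cancel] at h1 ⊢
  rw [show n + (t + 1) - 1 = n + t by omega] at h1
  set N := n + t with hN
  set b := N.choose (N / 2) with hb
  have h2 : b ^ 2 * (N + 1) ≤ 4 ^ N := mid_upper N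
  have hn0 : (0 : ℝ) < n := by
    have : 0 < n := by omega
    exact_mod_cast this
  set s := Real.sqrt n with hs
  have hs0 : 0 < s := Real.sqrt_pos.2 hn0
  have hss : s ^ 2 = n := Real.sq_sqrt hn0.le
  -- b * s ≤ 2 ^ N
  have h3 : (b : ℝ) * s ≤ 2 ^ N := by
    have h2' : ((b : ℝ)) ^ 2 * ((N : ℝ) + 1) ≤ 4 ^ N := by exact_mod_cast h2
    have h4 : ((b : ℝ) * s) ^ 2 ≤ (2 ^ N) ^ 2 := by
      rw [mul_pow, hss]
      calc (b : ℝ) ^ 2 * n ≤ (b : ℝ) ^ 2 * ((N : ℝ) + 1) := by
            apply mul_le_mul_of_nonneg_left _ (by positivity)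
            rw [hN]; push_cast
            have : (0 : ℝ) ≤ t := by positivity
            linarith
        _ ≤ 4 ^ N := h2'
        _ = (2 ^ N) ^ 2 := by rw [← pow_mul, mul_comm, pow_mul]; norm_num
    exact (pow_le_pow_iff_left₀ (by positivity) (by positivity) (by norm_num)).1 h4
  have h5 : ((n : ℝ)) ^ t / (t.factorial : ℝ) ≤ (N.choose t : ℝ) := by
    have := Nat.pow_le_choose (α := ℝ) t N
    rw [show N + 1 - t = n + 1 by omega] at this
    refine le_trans ?_ this
    apply div_le_div_of_nonneg_right _ (by positivity)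
    apply pow_le_pow_left₀ (by positivity)
    push_cast; linarith
  have h1' : 2 * (M (t + 1) n : ℝ) * (N.choose t : ℝ) ≤ b := by exact_mod_cast h1
  have hM0 : (0 : ℝ) ≤ M (t + 1) n := by positivity
  have hf0 : (0 : ℝ) < (t.factorial : ℝ) := by positivity
  have h6 : 2 * (M (t + 1) n : ℝ) * ((n : ℝ) ^ t / (t.factorial : ℝ)) ≤ b :=
    (mul_le_mul_of_nonneg_left h5 (by positivity)).trans h1'
  have h7 : 2 * (M (t + 1) n : ℝ) * (n : ℝ) ^ t ≤ b * t.factorial := by
    have := mul_le_mul_of_nonneg_right h6 hf0.le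
    calc 2 * (M (t + 1) n : ℝ) * (n : ℝ) ^ t =
        2 * (M (t + 1) n : ℝ) * ((n : ℝ) ^ t / (t.factorial : ℝ)) * t.factorial := by
          field_simp
      _ ≤ _ := this
  have h8 : 2 * (M (t + 1) n : ℝ) * (n : ℝ) ^ t * s ≤ 2 ^ N * t.factorial := by
    calc 2 * (M (t + 1) n : ℝ) * (n : ℝ) ^ t * s ≤ (b * t.factorial) * s :=
          mul_le_mul_of_nonneg_right h7 hs0.le
      _ = (b * s) * t.factorial := by ring
      _ ≤ 2 ^ N * t.factorial := mul_le_mul_of_nonneg_right h3 hf0.le
  have h9 : (2 : ℝ) ^ (t + 1) * (t.factorial : ℝ) / 4 * (2 ^ n * s / (n : ℝ) ^ (t + 1)) =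
      2 ^ N * t.factorial / (2 * (n : ℝ) ^ t * s) := by
    have e1 : (n : ℝ) ^ (t + 1) = (n : ℝ) ^ t * s ^ 2 := by rw [pow_succ, hss]
    have e2 : (2 : ℝ) ^ N = 2 ^ n * 2 ^ t := by rw [hN, pow_add]
    rw [e1, e2, pow_succ]
    field_simp
    norm_num
  rw [h9, le_div_iff₀ (by positivity)]
  calc (M (t + 1) n : ℝ) * (2 * (n : ℝ) ^ t * s) = 2 * (M (t + 1) n : ℝ) * (n : ℝ) ^ t * s := by
        ring
    _ ≤ _ := h8

theorem growth_lower (r n : ℕ) (hr : 1 ≤ r) (hn : 4 * r ≤ n) :
    1 / 8 ^ r * (2 ^ n * Real.sqrt n / (n : ℝ) ^ r) ≤ (M r n : ℝ) := by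
  have h1 := M_lower r n hr hn
  obtain ⟨t, rfl⟩ : ∃ t, r = t + 1 := ⟨r - 1, by omega⟩
  simp only [Nat.add_sub_cancel] at h1 ⊢
  set N := n - 2 * (t + 1) with hN
  have hNn : n = N + 2 * (t + 1) := by omega
  set b := N.choose (N / 2) with hb
  have h2 : 4 ^ N ≤ b ^ 2 * (2 * (N + 1)) := mid_lower N
  have hn0 : (0 : ℝ) < n := by
    have : 0 < n := by omega
    exact_mod_cast this
  set s := Real.sqrt n with hs
  have hs0 : 0 < s := Real.sqrt_pos.2 hn0
  have hss : s ^ 2 = n := Real.sq_sqrt hn0.le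
  have h3 : (2 : ℝ) ^ N ≤ b * (2 * s) := by
    have h2' : (4 : ℝ) ^ N ≤ (b : ℝ) ^ 2 * (2 * ((N : ℝ) + 1)) := by exact_mod_cast h2
    have h4 : ((2 : ℝ) ^ N) ^ 2 ≤ ((b : ℝ) * (2 * s)) ^ 2 := by
      rw [mul_pow, mul_pow, hss]
      calc ((2 : ℝ) ^ N) ^ 2 = 4 ^ N := by rw [← pow_mul, mul_comm, pow_mul]; norm_num
        _ ≤ (b : ℝ) ^ 2 * (2 * ((N : ℝ) + 1)) := h2'
        _ ≤ (b : ℝ) ^ 2 * (2 ^ 2 * (n : ℝ)) := by
          apply mul_le_mul_of_nonneg_left _ (by positivity)
          have : (n : ℝ) = (N : ℝ) + 2 * ((t : ℝ) + 1) := by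
            have h := congrArg (Nat.cast : ℕ → ℝ) hNn
            push_cast at h
            exact h
          have ht : (0 : ℝ) ≤ t := by positivity
          have hN0 : (0 : ℝ) ≤ N := by positivity
          nlinarith
    exact (pow_le_pow_iff_left₀ (by positivity) (by positivity) (by norm_num)).1 h4
  have h1' : (b : ℝ) ≤ (2 * (N : ℝ)) ^ t * M (t + 1) n := by exact_mod_cast h1
  have hNle : (N : ℝ) ≤ n := by
    have : N ≤ n := by omega
    exact_mod_cast this
  have h4 : (b : ℝ) ≤ (2 * (n : ℝ)) ^ t * M (t + 1) n := by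
    refine h1'.trans ?_
    apply mul_le_mul_of_nonneg_right _ (by positivity)
    apply pow_le_pow_left₀ (by positivity)
    linarith
  have h5 : (2 : ℝ) ^ N ≤ (2 * (n : ℝ)) ^ t * M (t + 1) n * (2 * s) :=
    h3.trans (mul_le_mul_of_nonneg_right h4 (by positivity))
  have e1 : (n : ℝ) ^ (t + 1) = (n : ℝ) ^ t * s ^ 2 := by rw [pow_succ, hss]
  have e2 : (2 : ℝ) ^ n = 2 ^ N * 4 ^ (t + 1) := by
    rw [hNn, pow_add, pow_mul]; norm_num
  have e3 : (8 : ℝ) ^ (t + 1) = 4 ^ (t + 1) * (2 * 2 ^ t) := by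
    rw [show (8 : ℝ) = 4 * 2 by norm_num, mul_pow, pow_succ 2 t]; ring
  rw [e1, e2, e3]
  have e4 : 1 / ((4 : ℝ) ^ (t + 1) * (2 * 2 ^ t)) * (2 ^ N * 4 ^ (t + 1) * s /
      ((n : ℝ) ^ t * s ^ 2)) = 2 ^ N / ((2 * (n : ℝ)) ^ t * (2 * s)) := by
    rw [mul_pow]
    field_simp
  rw [e4, div_le_iff₀ (by positivity)]
  calc (2 : ℝ) ^ N ≤ (2 * (n : ℝ)) ^ t * M (t + 1) n * (2 * s) := h5
    _ = _ := by ring

end growth

section threshold

variable {V : Type} [Fintype V] [DecidableEq V]

/-- the sign vector of a set -/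
def sg (A : Finset V) (x : V) : ℤ := if x ∈ A then 1 else -1

theorem sg_sq (A : Finset V) (x : V) : sg A x * sg A x = 1 := by
  unfold sg; split <;> norm_num

theorem sg_compl (A : Finset V) (x : V) : sg Aᶜ x = - sg A x := by
  unfold sg; by_cases h : x ∈ A <;> simp [h]

theorem cell (A B : Finset V) :
    4 * ((A ∩ B).card : ℤ) = Fintype.card V + ∑ x, sg A x + ∑ x, sg B x + ∑ x, sg A x * sg B x := by
  have h1 : ((A ∩ B).card : ℤ) = ∑ x : V, if x ∈ A ∩ B then 1 else 0 := by
    rw [sum_boole]; congr 2; ext x; simp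
  have h2 : (Fintype.card V : ℤ) = ∑ x : V, 1 := by simp
  rw [h1, h2, mul_sum, ← sum_add_distrib, ← sum_add_distrib, ← sum_add_distrib]
  refine sum_congr rfl fun x _ => ?_
  unfold sg
  by_cases hA : x ∈ A <;> by_cases hB : x ∈ B <;> simp [hA, hB]

theorem cells (A B : Finset V) (x y z : ℤ) (hx : ∑ v, sg A v = x) (hy : ∑ v, sg B v = y)
    (hz : ∑ v, sg A v * sg B v = z) :
    4 * ((A ∩ B).card : ℤ) = Fintype.card V + x + y + z ∧
    4 * ((A ∩ Bᶜ).card : ℤ) = Fintype.card V + x - y - z ∧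
    4 * ((Aᶜ ∩ B).card : ℤ) = Fintype.card V - x + y - z ∧
    4 * ((Aᶜ ∩ Bᶜ).card : ℤ) = Fintype.card V - x - y + z := by
  subst hx hy hz
  refine ⟨cell A B, ?_, ?_, ?_⟩
  · rw [cell]; simp only [sg_compl, mul_neg, sum_neg_distrib]; ring
  · rw [cell]; simp only [sg_compl, neg_mul, sum_neg_distrib]; ring
  · rw [cell]; simp only [sg_compl, neg_mul_neg, sum_neg_distrib]; ring

/-- the second-moment (Welch) inequality -/
theorem welch {ι : Type} [Fintype ι] [DecidableEq ι] (u : ι → V → ℤ)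
    (hu : ∀ i x, u i x * u i x = 1) (s : ℤ)
    (hs : ∀ i j, i ≠ j → (∑ x, u i x * u j x) ^ 2 ≤ s ^ 2) :
    (Fintype.card V : ℤ) * (Fintype.card ι : ℤ) ^ 2 ≤
      Fintype.card ι * (Fintype.card V : ℤ) ^ 2 +
        Fintype.card ι * ((Fintype.card ι : ℤ) - 1) * s ^ 2 := by
  have h1 : ∑ i, ∑ j, (∑ x, u i x * u j x) ^ 2 = ∑ x, ∑ y, (∑ i, u i x * u i y) ^ 2 := by
    have e1 : ∀ i j, (∑ x, u i x * u j x) ^ 2 = ∑ x, ∑ y, (u i x * u j x) * (u i y * u j y) := by
      intro i j; rw [sq, sum_mul_sum]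
    have e2 : ∀ x y, (∑ i, u i x * u i y) ^ 2 = ∑ i, ∑ j, (u i x * u i y) * (u j x * u j y) := by
      intro x y; rw [sq, sum_mul_sum]
    simp only [e1, e2]
    calc ∑ i, ∑ j, ∑ x, ∑ y, u i x * u j x * (u i y * u j y)
        = ∑ i, ∑ x, ∑ j, ∑ y, u i x * u j x * (u i y * u j y) :=
          sum_congr rfl fun i _ => sum_comm
      _ = ∑ x, ∑ i, ∑ j, ∑ y, u i x * u j x * (u i y * u j y) := sum_comm
      _ = ∑ x, ∑ i, ∑ y, ∑ j, u i x * u j x * (u i y * u j y) :=
          sum_congr rfl fun x _ => sum_congr rfl fun i _ => sum_comm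
      _ = ∑ x, ∑ y, ∑ i, ∑ j, u i x * u j x * (u i y * u j y) :=
          sum_congr rfl fun x _ => sum_comm
      _ = _ := by
          refine sum_congr rfl fun x _ => sum_congr rfl fun y _ => sum_congr rfl fun i _ =>
            sum_congr rfl fun j _ => ?_
          ring
  have h2 : ∑ x : V, (Fintype.card ι : ℤ) ^ 2 ≤ ∑ x, ∑ y, (∑ i, u i x * u i y) ^ 2 := by
    refine sum_le_sum fun x _ => ?_
    have e : (Fintype.card ι : ℤ) = ∑ i, u i x * u i x := by simp [hu]
    rw [e]
    exact single_le_sum (f := fun y => (∑ i, u i x * u i y) ^ 2) (fun y _ => sq_nonneg _)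
      (mem_univ x)
  have h3 : ∑ i, ∑ j, (∑ x, u i x * u j x) ^ 2 ≤
      ∑ i : ι, ((Fintype.card V : ℤ) ^ 2 + ((Fintype.card ι : ℤ) - 1) * s ^ 2) := by
    refine sum_le_sum fun i _ => ?_
    rw [← add_sum_erase univ _ (mem_univ i)]
    have e : ∑ x, u i x * u i x = (Fintype.card V : ℤ) := by simp [hu]
    rw [e]
    apply add_le_add le_rfl
    calc ∑ j ∈ univ.erase i, (∑ x, u i x * u j x) ^ 2 ≤ ∑ j ∈ univ.erase i, s ^ 2 :=
          sum_le_sum fun j hj => hs i j (ne_of_mem_erase hj).symm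
      _ = ((Fintype.card ι : ℤ) - 1) * s ^ 2 := by
          rw [sum_const, card_erase_of_mem (mem_univ i), card_univ, nsmul_eq_mul]
          have : 1 ≤ Fintype.card ι := Fintype.card_pos_iff.2 ⟨i⟩
          push_cast [Nat.cast_sub this]; ring
  rw [sum_const, card_univ, nsmul_eq_mul] at h2 h3
  rw [h1] at h3
  have := h2.trans h3
  linarith

/-- inner products of a family with at least two members, together with the constant vector -/
theorem ips {r m s : ℕ} (A : Fin m → Finset V) (hA : IsQI r A) (hm : 2 ≤ m)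
    (hV : Fintype.card V = 4 * r + s) :
    (∀ i, |∑ x, sg (A i) x| ≤ s) ∧
    (∀ i j, i ≠ j → |∑ x, sg (A i) x * sg (A j) x| ≤ s) := by
  have key : ∀ i j, i ≠ j → |∑ x, sg (A i) x| ≤ s ∧
      |∑ x, sg (A i) x * sg (A j) x| ≤ s := by
    intro i j hij
    obtain ⟨h1, h2, h3, h4⟩ := hA i j hij
    obtain ⟨c1, c2, c3, c4⟩ := cells (A i) (A j) _ _ _ rfl rfl rfl
    rw [hV] at c1 c2 c3 c4
    push_cast at c1 c2 c3 c4
    rw [abs_le, abs_le]
    refine ⟨⟨?_, ?_⟩, ?_, ?_⟩ <;> omega
  refine ⟨fun i => ?_, fun i j hij => (key i j hij).2⟩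
  by_cases h : i.val = 0
  · exact (key i ⟨1, by omega⟩ (fun e => by rw [e] at h; simp at h)).1
  · exact (key i ⟨0, by omega⟩ (fun e => h (by rw [e]))).1

theorem M_threshold (r s : ℕ) (hr : 1 ≤ r) :
    ((M r (4 * r + s) : ℤ) + 1) * ((4 * r + s : ℤ) - s ^ 2) ≤ (4 * r + s : ℤ) ^ 2 - s ^ 2 := by
  obtain ⟨A, hA⟩ := (M_isGreatest r (4 * r + s) hr).1
  have hm := two_le_M r (4 * r + s) hr (by omega)
  obtain ⟨h1, h2⟩ := ips (s := s) A hA hm (by simp)
  have h3 := welch (ι := Option (Fin (M r (4 * r + s))))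
    (fun i x => match i with | none => 1 | some i => sg (A i) x)
    (by
      intro i x
      rcases i with _ | i
      · simp
      · exact sg_sq _ _) s (by
      intro i j hij
      rw [sq_le_sq]
      rcases i with _ | i <;> rcases j with _ | j
      · exact absurd rfl hij
      · simpa using h1 j
      · simpa using h1 i
      · have := h2 i j (fun h => hij (by rw [h]))
        simpa using this)
  simp only [Fintype.card_option, Fintype.card_fin] at h3
  push_cast at h3
  set N : ℤ := (M r (4 * r + s) : ℤ) + 1 with hN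
  have hN0 : 0 < N := by positivity
  have h4 : N * (N * ((4 * r + s : ℤ) - s ^ 2)) ≤ N * ((4 * r + s : ℤ) ^ 2 - s ^ 2) := by
    nlinarith
  exact le_of_mul_le_mul_left h4 hN0

end threshold

section exact

/-- There is a square matrix of order `n` with entries `±1` any two distinct rows of which have
inner product `c`: for `c = 0` this is a Hadamard matrix of order `n`, for `c = 1` (a matrix `W` with
`W Wᵀ = (n-1) I + J`) it is a Barba matrix of order `n`. -/
def SignMatrix (n : ℕ) (c : ℤ) : Prop :=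
  ∃ W : Fin n → Fin n → ℤ, (∀ i x, W i x = 1 ∨ W i x = -1) ∧
    ∀ i j, i ≠ j → ∑ x, W i x * W j x = c

variable {V : Type} [Fintype V] [DecidableEq V]

theorem sg_val (A : Finset V) (x : V) : sg A x = 1 ∨ sg A x = -1 := by
  unfold sg; split <;> simp

/-- from a family on `4r + c` points to a system of sign vectors, `c ∈ {0, 1}` -/
theorem to_vectors {r m c : ℕ} (hc : c ≤ 1) (A : Fin m → Finset V) (hA : IsQI r A) (hm : 2 ≤ m)
    (hV : Fintype.card V = 4 * r + c) :
    ∃ v : Option (Fin m) → V → ℤ, (∀ i x, v i x = 1 ∨ v i x = -1) ∧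
      ∀ i j, i ≠ j → ∑ x, v i x * v j x = c := by
  have key : ∀ i j, i ≠ j →
      (c = 0 ∧ ∑ x, sg (A i) x = 0 ∧ ∑ x, sg (A i) x * sg (A j) x = 0) ∨
      (c = 1 ∧ ∑ x, sg (A i) x = 1 ∧ ∑ x, sg (A j) x = 1 ∧ ∑ x, sg (A i) x * sg (A j) x = 1) ∨
      (c = 1 ∧ ∑ x, sg (A i) x = 1 ∧ ∑ x, sg (A j) x = -1 ∧ ∑ x, sg (A i) x * sg (A j) x = -1) ∨
      (c = 1 ∧ ∑ x, sg (A i) x = -1 ∧ ∑ x, sg (A j) x = 1 ∧ ∑ x, sg (A i) x * sg (A j) x = -1) ∨
      (c = 1 ∧ ∑ x, sg (A i) x = -1 ∧ ∑ x, sg (A j) x = -1 ∧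
        ∑ x, sg (A i) x * sg (A j) x = 1) := by
    intro i j hij
    obtain ⟨h1, h2, h3, h4⟩ := hA i j hij
    obtain ⟨c1, c2, c3, c4⟩ := cells (A i) (A j) _ _ _ rfl rfl rfl
    rw [hV] at c1 c2 c3 c4
    push_cast at c1 c2 c3 c4
    generalize ∑ x, sg (A i) x = X at c1 c2 c3 c4 ⊢
    generalize ∑ x, sg (A j) x = Y at c1 c2 c3 c4 ⊢
    generalize ∑ x, sg (A i) x * sg (A j) x = Z at c1 c2 c3 c4 ⊢
    generalize (A i ∩ A j).card = p1 at h1 c1
    generalize (A i ∩ (A j)ᶜ).card = p2 at h2 c2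
    generalize ((A i)ᶜ ∩ A j).card = p3 at h3 c3
    generalize ((A i)ᶜ ∩ (A j)ᶜ).card = p4 at h4 c4
    have hcc : c = 0 ∨ c = 1 := by omega
    rcases hcc with rfl | rfl
    · left
      push_cast at c1 c2 c3 c4
      refine ⟨rfl, ?_, ?_⟩ <;> omega
    · right
      push_cast at c1 c2 c3 c4
      have hp : (p1 = r + 1 ∧ p2 = r ∧ p3 = r ∧ p4 = r) ∨ (p1 = r ∧ p2 = r + 1 ∧ p3 = r ∧ p4 = r) ∨
          (p1 = r ∧ p2 = r ∧ p3 = r + 1 ∧ p4 = r) ∨ (p1 = r ∧ p2 = r ∧ p3 = r ∧ p4 = r + 1) := by
        omega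
      rcases hp with ⟨rfl, rfl, rfl, rfl⟩ | ⟨rfl, rfl, rfl, rfl⟩ | ⟨rfl, rfl, rfl, rfl⟩ |
        ⟨rfl, rfl, rfl, rfl⟩ <;> push_cast at c1 c2 c3 c4
      · left; refine ⟨rfl, ?_, ?_, ?_⟩ <;> linarith
      · right; left; refine ⟨rfl, ?_, ?_, ?_⟩ <;> linarith
      · right; right; left; refine ⟨rfl, ?_, ?_, ?_⟩ <;> linarith
      · right; right; right; refine ⟨rfl, ?_, ?_, ?_⟩ <;> linarith
  have hval : ∀ i, (c = 0 ∧ ∑ x, sg (A i) x = 0) ∨ (c = 1 ∧ ∑ x, sg (A i) x = 1) ∨
      (c = 1 ∧ ∑ x, sg (A i) x = -1) := by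
    intro i
    have hex : ∃ j : Fin m, i ≠ j := by
      by_cases h : i.val = 0
      · exact ⟨⟨1, by omega⟩, fun e => by rw [e] at h; simp at h⟩
      · exact ⟨⟨0, by omega⟩, fun e => h (by rw [e])⟩
    obtain ⟨j, hj⟩ := hex
    have := key i j hj
    omega
  have hcc : c = 0 ∨ c = 1 := by omega
  rcases hcc with rfl | rfl
  · refine ⟨fun i x => match i with | none => 1 | some i => sg (A i) x, ?_, ?_⟩
    · intro i x
      rcases i with _ | i
      · left; rfl
      · exact sg_val _ _
    · intro i j hij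
      rcases i with _ | i <;> rcases j with _ | j
      · exact absurd rfl hij
      · have := hval j
        simp only [one_mul]; omega
      · have := hval i
        simp only [mul_one]; omega
      · have := key i j (fun h => hij (by rw [h]))
        simp only; omega
  · refine ⟨fun i x => match i with | none => 1 | some i => (∑ y, sg (A i) y) * sg (A i) x,
      ?_, ?_⟩
    · intro i x
      rcases i with _ | i
      · left; rfl
      · have h1 := hval i
        have h2 := sg_val (A i) x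
        rcases h1 with h1 | h1 | h1
        · omega
        · simp only [h1.2, one_mul]; exact h2
        · simp only [h1.2]; omega
    · intro i j hij
      rcases i with _ | i <;> rcases j with _ | j
      · exact absurd rfl hij
      · have := hval j
        simp only [one_mul, ← mul_sum]
        rcases this with h | h | h
        · omega
        · rw [h.2]; norm_num
        · rw [h.2]; norm_num
      · have := hval i
        simp only [mul_one, ← mul_sum]
        rcases this with h | h | h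
        · omega
        · rw [h.2]; norm_num
        · rw [h.2]; norm_num
      · have := key i j (fun h => hij (by rw [h]))
        have e : ∀ x, (∑ y, sg (A i) y) * sg (A i) x * ((∑ y, sg (A j) y) * sg (A j) x) =
            ((∑ y, sg (A i) y) * (∑ y, sg (A j) y)) * (sg (A i) x * sg (A j) x) := by
          intro x; ring
        simp only [e, ← mul_sum]
        rcases this with h | h | h | h | h
        · omega
        all_goals
          rw [h.2.1, h.2.2.1, h.2.2.2]; norm_num

/-- from a system of sign vectors to a family -/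
theorem of_vectors {r m c : ℕ} (hc : c ≤ 1) (hV : Fintype.card V = 4 * r + c)
    (W : Fin (m + 1) → V → ℤ) (hW : ∀ i x, W i x = 1 ∨ W i x = -1)
    (hip : ∀ i j, i ≠ j → ∑ x, W i x * W j x = c) :
    ∃ A : Fin m → Finset V, IsQI r A := by
  refine ⟨fun i => univ.filter (fun x => W i.succ x = W 0 x), ?_⟩
  intro i j hij
  have hsg : ∀ (i : Fin m) x, sg (univ.filter (fun x => W i.succ x = W 0 x)) x =
      W i.succ x * W 0 x := by
    intro i x
    unfold sg
    have h1 := hW i.succ x
    have h2 := hW 0 x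
    rcases h1 with h1 | h1 <;> rcases h2 with h2 | h2 <;> simp [h1, h2]
  have hone : ∀ i : Fin m, ∑ x, sg (univ.filter (fun x => W i.succ x = W 0 x)) x = c := by
    intro i
    simp only [hsg]
    exact hip _ _ (Fin.succ_ne_zero i)
  have hprod : ∑ x, sg (univ.filter (fun x => W i.succ x = W 0 x)) x *
      sg (univ.filter (fun x => W j.succ x = W 0 x)) x = c := by
    simp only [hsg]
    rw [← hip i.succ j.succ (fun h => hij (Fin.succ_injective _ h))]
    refine sum_congr rfl fun x _ => ?_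
    have h2 : W 0 x * W 0 x = 1 := by rcases hW 0 x with h | h <;> rw [h] <;> norm_num
    linear_combination (W i.succ x * W j.succ x) * h2
  obtain ⟨c1, c2, c3, c4⟩ := cells _ _ _ _ _ (hone i) (hone j) hprod
  rw [hV] at c1 c2 c3 c4
  push_cast at c1 c2 c3 c4
  refine ⟨?_, ?_, ?_, ?_⟩ <;> simp only <;> omega

theorem M_four_le (r : ℕ) (hr : 1 ≤ r) : M r (4 * r) ≤ 4 * r - 1 := by
  have h := M_threshold r 0 hr
  simp only [add_zero, ne_eq, OfNat.ofNat_ne_zero, not_false_eq_true, zero_pow,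
    sub_zero, CharP.cast_eq_zero] at h
  have h0 : (0 : ℤ) < 4 * r := by
    have : (0 : ℤ) < r := by exact_mod_cast hr
    linarith
  have h1 : ((M r (4 * r) : ℤ) + 1) * (4 * r) ≤ (4 * r) * (4 * r) := by
    rw [sq] at h; exact h
  have h2 := le_of_mul_le_mul_right h1 h0
  omega

theorem M_four_iff (r : ℕ) (hr : 1 ≤ r) : M r (4 * r) = 4 * r - 1 ↔ SignMatrix (4 * r) 0 := by
  constructor
  · intro h
    obtain ⟨A, hA⟩ := (M_isGreatest r (4 * r) hr).1
    obtain ⟨v, hv1, hv2⟩ := to_vectors (c := 0) (by omega) A hA (two_le_M _ _ hr le_rfl) (by simp)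
    have hcard : Fintype.card (Fin (4 * r)) = Fintype.card (Option (Fin (M r (4 * r)))) := by
      rw [Fintype.card_option, Fintype.card_fin, Fintype.card_fin, h]; omega
    let e := Fintype.equivOfCardEq hcard
    refine ⟨fun i => v (e i), fun i x => hv1 _ _, fun i j hij => ?_⟩
    have := hv2 (e i) (e j) (fun h => hij (e.injective h))
    simpa using this
  · rintro ⟨W, hW1, hW2⟩
    apply le_antisymm (M_four_le r hr)
    have hlen : 4 * r - 1 + 1 = 4 * r := by omega
    obtain ⟨A, hA⟩ := of_vectors (r := r) (m := 4 * r - 1) (c := 0) (V := Fin (4 * r)) (by omega)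
      (by simp) (fun i => W (Fin.cast hlen i)) (fun i x => hW1 _ _)
      (fun i j hij => by
        have := hW2 (Fin.cast hlen i) (Fin.cast hlen j) (fun h => hij (Fin.cast_injective _ h))
        simpa using this)
    exact (M_isGreatest r (4 * r) hr).2 ⟨A, hA⟩

/-- a system of sign vectors with all inner products `1` is linearly independent -/
theorem card_le_of_one {ι : Type} [Fintype ι] [DecidableEq ι] (hV : 2 ≤ Fintype.card V)
    (v : ι → V → ℤ) (hv : ∀ i x, v i x = 1 ∨ v i x = -1)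
    (hip : ∀ i j, i ≠ j → ∑ x, v i x * v j x = 1) : Fintype.card ι ≤ Fintype.card V := by
  have hli : LinearIndependent ℚ (fun i => (fun x => (v i x : ℚ))) := by
    rw [Fintype.linearIndependent_iff]
    intro g hg
    have h1 : ∀ x, ∑ i, g i * (v i x : ℚ) = 0 := by
      intro x
      have := congrFun hg x
      simpa using this
    have h2 : ∑ x, (∑ i, g i * (v i x : ℚ)) ^ 2 = 0 := by simp [h1]
    have h3 : ∑ x, (∑ i, g i * (v i x : ℚ)) ^ 2 =
        ∑ i, ∑ j, g i * g j * ((∑ x, v i x * v j x : ℤ) : ℚ) := by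
      have e : ∀ x, (∑ i, g i * (v i x : ℚ)) ^ 2 =
          ∑ i, ∑ j, g i * g j * ((v i x : ℚ) * v j x) := by
        intro x
        rw [sq, sum_mul_sum]
        refine sum_congr rfl fun i _ => sum_congr rfl fun j _ => by ring
      simp only [e]
      rw [sum_comm]
      refine sum_congr rfl fun i _ => ?_
      rw [sum_comm]
      refine sum_congr rfl fun j _ => ?_
      rw [← mul_sum]
      push_cast
      rfl
    have h4 : ∀ i j, ((∑ x, v i x * v j x : ℤ) : ℚ) =
        (if i = j then ((Fintype.card V : ℚ) - 1) else 0) + 1 := by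
      intro i j
      by_cases hij : i = j
      · subst hij
        have : ∑ x, v i x * v i x = (Fintype.card V : ℤ) := by
          have e : ∀ x, v i x * v i x = 1 := by
            intro x; rcases hv i x with h | h <;> rw [h] <;> norm_num
          simp [e]
        rw [this]; simp
      · rw [hip i j hij]; simp [hij]
    rw [h3] at h2
    simp only [h4] at h2
    have h5 : ∑ i, ∑ j, g i * g j * ((if i = j then ((Fintype.card V : ℚ) - 1) else 0) + 1) =
        ((Fintype.card V : ℚ) - 1) * ∑ i, g i ^ 2 + (∑ i, g i) ^ 2 := by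
      rw [sq, sum_mul_sum, mul_sum, ← sum_add_distrib]
      refine sum_congr rfl fun i _ => ?_
      have : ∀ j, g i * g j * ((if i = j then ((Fintype.card V : ℚ) - 1) else 0) + 1) =
          (if i = j then ((Fintype.card V : ℚ) - 1) * (g i * g j) else 0) + g i * g j := by
        intro j; split <;> ring
      simp only [this, sum_add_distrib, sum_ite_eq, mem_univ, if_true]
      ring
    rw [h5] at h2
    have hV' : (1 : ℚ) ≤ (Fintype.card V : ℚ) - 1 := by
      have : (2 : ℚ) ≤ Fintype.card V := by exact_mod_cast hV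
      linarith
    have h6 : ∑ i, g i ^ 2 = 0 := by
      have hnn : 0 ≤ ∑ i, g i ^ 2 := sum_nonneg fun i _ => sq_nonneg _
      nlinarith [sq_nonneg (∑ i, g i)]
    intro i
    have := (sum_eq_zero_iff_of_nonneg (fun i _ => sq_nonneg (g i))).1 h6 i (mem_univ i)
    simpa using this
  have := hli.fintype_card_le_finrank
  simpa using this

theorem det_scalar_add_ones (n : ℕ) (a : ℚ) (ha : a ≠ 0) :
    (Matrix.of (fun i j : Fin n => (if i = j then a else 0) + 1) : Matrix (Fin n) (Fin n) ℚ).det =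
      a ^ n * (1 + n / a) := by
  have h : (Matrix.of (fun i j : Fin n => (if i = j then a else 0) + 1) :
      Matrix (Fin n) (Fin n) ℚ) =
      a • (1 + Matrix.replicateCol Unit (fun _ : Fin n => 1 / a) *
        Matrix.replicateRow Unit (fun _ : Fin n => (1 : ℚ))) := by
    ext i j
    simp only [Matrix.of_apply, Matrix.smul_apply, Matrix.add_apply, Matrix.mul_apply,
      Matrix.replicateCol_apply, Matrix.replicateRow_apply, Matrix.one_apply, smul_eq_mul,
      univ_unique, sum_singleton]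
    by_cases hij : i = j
    · simp [hij]; field_simp
    · simp [hij]; field_simp
  rw [h, Matrix.det_smul, Matrix.det_one_add_replicateCol_mul_replicateRow, Fintype.card_fin]
  simp only [dotProduct, one_mul, sum_const, card_univ, Fintype.card_fin, nsmul_eq_mul]
  ring

theorem isSquare_aux (r n : ℕ) (hr : 1 ≤ r) (hn : n = 4 * r + 1) (h : SignMatrix n 1) :
    IsSquare (8 * r + 1) := by
  obtain ⟨W, hW, hip⟩ := h
  let A : Matrix (Fin n) (Fin n) ℚ := Matrix.of (fun i x => (W i x : ℚ))
  have hAA : A * A.transpose = Matrix.of (fun i j : Fin n =>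
      (if i = j then (4 * r : ℚ) else 0) + 1) := by
    ext i j
    rw [Matrix.mul_apply]
    simp only [A, Matrix.transpose_apply, Matrix.of_apply]
    have e : ∑ x, (W i x : ℚ) * (W j x : ℚ) = ((∑ x, W i x * W j x : ℤ) : ℚ) := by push_cast; rfl
    rw [e]
    by_cases hij : i = j
    · subst hij
      have e2 : ∑ x, W i x * W i x = (n : ℤ) := by
        have e : ∀ x, W i x * W i x = 1 := by
          intro x; rcases hW i x with h | h <;> rw [h] <;> norm_num
        simp [e]
      have e3 : (n : ℚ) = 4 * r + 1 := by rw [hn]; push_cast; ring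
      rw [e2]; simp [e3]
    · rw [hip i j hij]; simp [hij]
  have hr0 : (4 * r : ℚ) ≠ 0 := by
    have : (0 : ℚ) < r := by exact_mod_cast hr
    positivity
  have hdet : A.det ^ 2 = (4 * r : ℚ) ^ n * (1 + n / (4 * r : ℚ)) := by
    rw [← det_scalar_add_ones n (4 * r : ℚ) hr0, ← hAA, Matrix.det_mul, Matrix.det_transpose, sq]
  have hdet2 : A.det ^ 2 = ((4 * r : ℚ) ^ (2 * r)) ^ 2 * (8 * r + 1) := by
    have e3 : (n : ℚ) = 4 * r + 1 := by rw [hn]; push_cast; ring
    have e4 : (4 * r : ℚ) ^ n = ((4 * r : ℚ) ^ (2 * r)) ^ 2 * (4 * r) := by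
      rw [← pow_mul, ← pow_succ, hn]; congr 1; ring
    rw [hdet, e3, e4]
    field_simp
    ring
  have hrat : IsSquare ((8 * r + 1 : ℕ) : ℚ) := by
    refine ⟨A.det / (4 * r : ℚ) ^ (2 * r), ?_⟩
    have hp : ((4 * r : ℚ) ^ (2 * r)) ≠ 0 := pow_ne_zero _ hr0
    rw [div_mul_div_comm, ← sq, ← sq, hdet2, mul_div_cancel_left₀ _ (pow_ne_zero _ hp)]
    push_cast
    ring
  exact (Rat.isSquare_natCast_iff).1 hrat

/-- a Barba matrix of order `4r + 1` forces `8r + 1` to be a square -/
theorem isSquare_of_signMatrix (r : ℕ) (hr : 1 ≤ r) (h : SignMatrix (4 * r + 1) 1) :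
    IsSquare (8 * r + 1) := isSquare_aux r _ hr rfl h

theorem M_four_one_le (r : ℕ) (hr : 1 ≤ r) : M r (4 * r + 1) ≤ 4 * r := by
  obtain ⟨A, hA⟩ := (M_isGreatest r (4 * r + 1) hr).1
  obtain ⟨v, hv1, hv2⟩ := to_vectors (c := 1) le_rfl A hA (two_le_M _ _ hr (by omega)) (by simp)
  have := card_le_of_one (by simp; omega) v hv1 (by simpa using hv2)
  rw [Fintype.card_option, Fintype.card_fin, Fintype.card_fin] at this
  omega

theorem M_four_one_iff (r : ℕ) (hr : 1 ≤ r) :
    M r (4 * r + 1) = 4 * r ↔ SignMatrix (4 * r + 1) 1 := by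
  constructor
  · intro h
    obtain ⟨A, hA⟩ := (M_isGreatest r (4 * r + 1) hr).1
    obtain ⟨v, hv1, hv2⟩ := to_vectors (c := 1) le_rfl A hA (two_le_M _ _ hr (by omega)) (by simp)
    have hcard : Fintype.card (Fin (4 * r + 1)) =
        Fintype.card (Option (Fin (M r (4 * r + 1)))) := by
      rw [Fintype.card_option, Fintype.card_fin, Fintype.card_fin, h]
    let e := Fintype.equivOfCardEq hcard
    refine ⟨fun i => v (e i), fun i x => hv1 _ _, fun i j hij => ?_⟩
    have := hv2 (e i) (e j) (fun h => hij (e.injective h))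
    simpa using this
  · rintro ⟨W, hW1, hW2⟩
    apply le_antisymm (M_four_one_le r hr)
    obtain ⟨A, hA⟩ := of_vectors (r := r) (m := 4 * r) (c := 1) (V := Fin (4 * r + 1)) le_rfl
      (by simp) W hW1 (by simpa using hW2)
    exact (M_isGreatest r (4 * r + 1) hr).2 ⟨A, hA⟩

theorem M_four_one_eq (r : ℕ) (hr : 1 ≤ r) (hH : SignMatrix (4 * r) 0)
    (hB : ¬ SignMatrix (4 * r + 1) 1) : M r (4 * r + 1) = 4 * r - 1 := by
  have h1 := M_four_one_le r hr
  have h2 : M r (4 * r + 1) ≠ 4 * r := fun h => hB ((M_four_one_iff r hr).1 h)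
  have h3 := M_mono hr (n := 4 * r) (n' := 4 * r + 1) (by omega)
  rw [(M_four_iff r hr).2 hH] at h3
  omega

end exact

section small

/-- one member of each complementary pair of blocks of the Steiner system `S(5,6,12)`, as
bit masks -/
def hexads : List ℕ := [125, 183, 207, 315, 343, 429, 473, 483, 543, 619, 697, 723, 741, 807, 845,
  881, 907, 917, 1115, 1127, 1181, 1195, 1265, 1295, 1333, 1385, 1427, 1477, 1581, 1587, 1621,
  1671, 1737, 1817, 1859, 1953, 2095, 2163, 2203, 2261, 2281, 2333, 2379, 2405, 2439, 2481, 2613,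
  2631, 2649, 2701, 2723, 2835, 2857, 3009, 3095, 3129, 3149, 3237, 3267, 3363, 3409, 3465, 3595,
  3681, 3729, 3845]

def ofMask (n k : ℕ) : Finset (Fin n) := univ.filter (fun x => k.testBit x.val = true)

/-- two distinct indices witness that a set has at least two elements -/
def two (n : ℕ) (P : ℕ → Bool) : Bool :=
  (List.range n).any (fun x => P x && (List.range x).any (fun y => P y))

theorem two_spec (n : ℕ) (P : ℕ → Bool) (h : two n P = true) (S : Finset (Fin n))
    (hS : ∀ x : Fin n, P x.val = true → x ∈ S) : 2 ≤ S.card := by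
  unfold two at h
  rw [List.any_eq_true] at h
  obtain ⟨x, hx, hPx⟩ := h
  rw [Bool.and_eq_true, List.any_eq_true] at hPx
  obtain ⟨hPx, y, hy, hPy⟩ := hPx
  rw [List.mem_range] at hx hy
  have h1 := hS ⟨x, hx⟩ hPx
  have h2 := hS ⟨y, hy.trans hx⟩ hPy
  have h3 : ({⟨x, hx⟩, ⟨y, hy.trans hx⟩} : Finset (Fin n)) ⊆ S := by
    intro z hz
    rw [mem_insert, mem_singleton] at hz
    rcases hz with rfl | rfl
    · exact h1
    · exact h2
  have h4 := card_le_card h3
  rw [card_pair] at h4
  · exact h4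
  · intro e
    have := congrArg Fin.val e
    simp at this
    omega

def pairOK (n a b : ℕ) : Bool :=
  two n (fun x => a.testBit x && b.testBit x) && two n (fun x => a.testBit x && !(b.testBit x)) &&
  two n (fun x => !(a.testBit x) && b.testBit x) && two n (fun x => !(a.testBit x) && !(b.testBit x))

theorem qi_of_masks (n : ℕ) (l : List ℕ)
    (h : l.Pairwise (fun a b => pairOK n a b = true)) :
    IsQI 2 (fun i : Fin l.length => ofMask n (l.get i)) := by
  have h1 : ∀ a b, pairOK n a b = true →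
      2 ≤ (ofMask n a ∩ ofMask n b).card ∧ 2 ≤ (ofMask n a ∩ (ofMask n b)ᶜ).card ∧
      2 ≤ ((ofMask n a)ᶜ ∩ ofMask n b).card ∧ 2 ≤ ((ofMask n a)ᶜ ∩ (ofMask n b)ᶜ).card := by
    intro a b hab
    unfold pairOK at hab
    simp only [Bool.and_eq_true] at hab
    obtain ⟨⟨⟨c1, c2⟩, c3⟩, c4⟩ := hab
    refine ⟨two_spec n _ c1 _ ?_, two_spec n _ c2 _ ?_, two_spec n _ c3 _ ?_,
      two_spec n _ c4 _ ?_⟩ <;> intro x hx <;> simp [ofMask] at hx ⊢ <;> simp [hx]
  rw [List.pairwise_iff_get] at h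
  intro i j hij
  rcases lt_or_gt_of_ne hij with hlt | hlt
  · exact h1 _ _ (h i j hlt)
  · obtain ⟨c1, c2, c3, c4⟩ := h1 _ _ (h j i hlt)
    refine ⟨?_, ?_, ?_, ?_⟩
    · rw [inter_comm]; exact c1
    · rw [inter_comm]; exact c3
    · rw [inter_comm]; exact c2
    · rw [inter_comm]; exact c4

theorem hexads_ok : hexads.Pairwise (fun a b => pairOK 12 a b = true) := by
  decide +kernel

theorem M_two_twelve : M 2 12 = 66 := by
  apply le_antisymm
  · have h := M_upper 2 12 (by norm_num) (by norm_num)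
    have e1 : (12 + 2 - 1).choose (2 - 1) = 13 := by norm_num
    have e2 : (12 + 2 - 1).choose ((12 + 2 - 1) / 2) = 1716 := by norm_num [Nat.choose_eq_factorial_div_factorial, Nat.factorial]
    rw [e1, e2] at h
    omega
  · exact (M_isGreatest 2 12 (by norm_num)).2 ⟨_, qi_of_masks 12 hexads hexads_ok⟩

theorem fano_ok : [15, 51, 85, 105, 60, 90, 102].Pairwise (fun a b => pairOK 8 a b = true) := by
  decide +kernel

theorem M_two_eight : M 2 8 = 7 := by
  apply le_antisymm
  · exact M_four_le 2 (by norm_num)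
  · exact (M_isGreatest 2 8 (by norm_num)).2 ⟨_, qi_of_masks 8 _ fano_ok⟩

theorem M_two_nine : M 2 9 = 7 := by
  apply le_antisymm
  · have h1 := M_four_one_le 2 (by norm_num)
    have h2 : M 2 9 ≠ 8 := by
      intro h
      have h3 := isSquare_of_signMatrix 2 (by norm_num) ((M_four_one_iff 2 (by norm_num)).1 h)
      obtain ⟨k, hk⟩ := h3
      have : k ≤ 4 := by nlinarith
      interval_cases k <;> omega
    norm_num at h1
    omega
  · rw [← M_two_eight]; exact M_mono (by norm_num) (by norm_num)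

end small

section sylvester

theorem SignMatrix.double {n : ℕ} (h : SignMatrix n 0) : SignMatrix (2 * n) 0 := by
  obtain ⟨W, hW, hip⟩ := h
  let H : Fin 2 → Fin 2 → ℤ := fun a b => if a = 1 ∧ b = 1 then -1 else 1
  have hH : ∀ a b, H a b = 1 ∨ H a b = -1 := by
    intro a b; simp only [H]; split <;> simp
  have hHip : ∀ a b, a ≠ b → ∑ x, H a x * H b x = 0 := by decide
  let e : Fin (2 * n) ≃ Fin 2 × Fin n := finProdFinEquiv.symm
  refine ⟨fun i x => H (e i).1 (e x).1 * W (e i).2 (e x).2, ?_, ?_⟩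
  · intro i x
    rcases hH (e i).1 (e x).1 with h1 | h1 <;> rcases hW (e i).2 (e x).2 with h2 | h2 <;>
      simp [h1, h2]
  · intro i j hij
    have h1 : ∑ x, H (e i).1 (e x).1 * W (e i).2 (e x).2 * (H (e j).1 (e x).1 * W (e j).2 (e x).2) =
        ∑ y : Fin 2 × Fin n, H (e i).1 y.1 * W (e i).2 y.2 * (H (e j).1 y.1 * W (e j).2 y.2) :=
      Equiv.sum_comp e (fun y => H (e i).1 y.1 * W (e i).2 y.2 * (H (e j).1 y.1 * W (e j).2 y.2))
    rw [h1, Fintype.sum_prod_type]
    have h2 : ∀ a : Fin 2, ∑ y : Fin n, H (e i).1 a * W (e i).2 y * (H (e j).1 a * W (e j).2 y) =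
        (H (e i).1 a * H (e j).1 a) * ∑ y, W (e i).2 y * W (e j).2 y := by
      intro a
      rw [mul_sum]
      exact sum_congr rfl fun y _ => by ring
    simp only [h2, ← sum_mul]
    by_cases ha : (e i).1 = (e j).1
    · have hb : (e i).2 ≠ (e j).2 := fun h => hij (e.injective (Prod.ext ha h))
      rw [hip _ _ hb, mul_zero]
    · rw [hHip _ _ ha, zero_mul]

theorem SignMatrix.two_pow (k : ℕ) : SignMatrix (2 ^ k) 0 := by
  induction k with
  | zero =>
    refine ⟨fun _ _ => 1, fun _ _ => Or.inl rfl, fun i j hij => ?_⟩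
    exact absurd (Fin.ext (by have := i.2; have := j.2; simp only [pow_zero] at *; omega)) hij
  | succ k ih =>
    rw [pow_succ, mul_comm]
    exact ih.double

theorem not_square_two_pow (k : ℕ) (hk : 1 ≤ k) : ¬ IsSquare (8 * 2 ^ k + 1) := by
  rintro ⟨m, hm⟩
  have hm1 : 1 ≤ m := by
    by_contra h
    have : m = 0 := by omega
    subst this
    omega
  obtain ⟨l, rfl⟩ : ∃ l, m = l + 1 := ⟨m - 1, by omega⟩
  have h1 : l * (l + 2) = 2 ^ (k + 3) := by
    have e : 2 ^ (k + 3) = 8 * 2 ^ k := by rw [pow_add]; ring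
    rw [e]; nlinarith
  have h2 : l ∣ 2 ^ (k + 3) := ⟨_, h1.symm⟩
  have h3 : l + 2 ∣ 2 ^ (k + 3) := ⟨l, by rw [mul_comm]; exact h1.symm⟩
  obtain ⟨a, ha, hla⟩ := (Nat.dvd_prime_pow Nat.prime_two).1 h2
  obtain ⟨b, hb, hlb⟩ := (Nat.dvd_prime_pow Nat.prime_two).1 h3
  rcases a with _ | _ | a
  · rw [pow_zero] at hla
    subst hla
    rcases b with _ | b
    · norm_num at hlb
    · rw [pow_succ] at hlb; omega
  · norm_num at hla
    subst hla
    rw [pow_add] at h1
    have : 2 ^ k ≠ 1 := by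
      have : 2 ^ 1 ≤ 2 ^ k := Nat.pow_le_pow_right (by norm_num) hk
      omega
    omega
  · rcases b with _ | _ | b
    · rw [pow_zero] at hlb; omega
    · norm_num at hlb
      subst hlb
      have : 0 < 2 ^ (a + 1 + 1) := by positivity
      omega
    · have e1 : 2 ^ (a + 1 + 1) = 4 * 2 ^ a := by rw [pow_succ, pow_succ]; ring
      have e2 : 2 ^ (b + 1 + 1) = 4 * 2 ^ b := by rw [pow_succ, pow_succ]; ring
      omega

theorem M_sylvester (k : ℕ) (hk : 1 ≤ k) :
    M (2 ^ k) (4 * 2 ^ k) = 4 * 2 ^ k - 1 ∧ M (2 ^ k) (4 * 2 ^ k + 1) = 4 * 2 ^ k - 1 := by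
  have hr : 1 ≤ 2 ^ k := Nat.one_le_two_pow
  have h1 : SignMatrix (4 * 2 ^ k) 0 := by
    have := SignMatrix.two_pow (k + 2)
    rwa [pow_add, mul_comm] at this
  refine ⟨(M_four_iff _ hr).2 h1, M_four_one_eq _ hr h1 ?_⟩
  intro h
  exact not_square_two_pow k hk (isSquare_of_signMatrix _ hr h)

end sylvester

/-- **Bounds and exact values for `M_r(n)`.** -/
theorem result :
    -- `M r n` is the maximum of the problem
    (∀ r n : ℕ, 1 ≤ r → IsGreatest {m | ∃ A : Fin m → Finset (Fin n), IsQI r A} (M r n)) ∧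
    -- order of growth, with constants depending only on `r`
    (∀ r n : ℕ, 1 ≤ r → 4 * r ≤ n →
      1 / 8 ^ r * (2 ^ n * Real.sqrt n / (n : ℝ) ^ r) ≤ (M r n : ℝ) ∧
      (M r n : ℝ) ≤
        2 ^ r * ((r - 1).factorial : ℝ) / 4 * (2 ^ n * Real.sqrt n / (n : ℝ) ^ r)) ∧
    -- a closed-form upper bound
    (∀ r n : ℕ, 1 ≤ r → 4 * r ≤ n →
      2 * M r n * (n + r - 1).choose (r - 1) ≤ (n + r - 1).choose ((n + r - 1) / 2)) ∧
    -- trivial range
    (∀ r n : ℕ, 1 ≤ r → n < 4 * r → M r n = 1) ∧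
    -- linear upper bound on `n = 4r + s` points, `s ^ 2 < n`
    (∀ r s : ℕ, 1 ≤ r →
      ((M r (4 * r + s) : ℤ) + 1) * ((4 * r + s : ℤ) - s ^ 2) ≤ (4 * r + s : ℤ) ^ 2 - s ^ 2) ∧
    -- `n = 4r` and Hadamard matrices
    (∀ r : ℕ, 1 ≤ r → M r (4 * r) ≤ 4 * r - 1 ∧
      (M r (4 * r) = 4 * r - 1 ↔ SignMatrix (4 * r) 0)) ∧
    -- `n = 4r + 1` and Barba matrices
    (∀ r : ℕ, 1 ≤ r → M r (4 * r + 1) ≤ 4 * r ∧
      (M r (4 * r + 1) = 4 * r ↔ SignMatrix (4 * r + 1) 1) ∧
      (M r (4 * r + 1) = 4 * r → IsSquare (8 * r + 1)) ∧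
      (SignMatrix (4 * r) 0 → ¬ SignMatrix (4 * r + 1) 1 → M r (4 * r + 1) = 4 * r - 1)) ∧
    -- an infinite family of exact values
    (∀ k : ℕ, 1 ≤ k → M (2 ^ k) (4 * 2 ^ k) = 4 * 2 ^ k - 1 ∧
      M (2 ^ k) (4 * 2 ^ k + 1) = 4 * 2 ^ k - 1) ∧
    -- small cases with `r = 2`
    M 2 8 = 7 ∧ M 2 9 = 7 ∧ M 2 12 = 66 := by
  refine ⟨M_isGreatest, fun r n hr hn => ⟨growth_lower r n hr hn, growth_upper r n hr hn⟩,
    M_upper, M_small, M_threshold, fun r hr => ⟨M_four_le r hr, M_four_iff r hr⟩,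
    fun r hr => ⟨M_four_one_le r hr, M_four_one_iff r hr,
      fun h => isSquare_of_signMatrix r hr ((M_four_one_iff r hr).1 h), M_four_one_eq r hr⟩,
    M_sylvester, M_two_eight, M_two_nine, M_two_twelve⟩

end Pool.Agent.Results.MP_eaaa35_co.OrderOfGrowth
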